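import Pool.Agent.MP_9ab903_nt.TWR.RS1
import Pool.Agent.MP_9ab903_nt.CF3.Bad
import Pool.Agent.MP_dfae13_nt.R.Bridge

/-! # the primes of bad reduction of `Res_{F/ℚ} E_d`, for every number field `F` -/

set_option autoImplicit false

open NumberField IsDedekindDomain
open CM27 CMT CF
open scoped Classical

namespace NGW

/-- primes which do not divide the discriminant are unramified -/
theorem not_ram_of_discr (F : Type) [Field F] [NumberField F] (p : ℕ) (hp : p.Prime)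
    (hd : ¬ (p : ℤ) ∣ discr F) (v : HeightOneSpectrum (𝓞 F)) (hv : (p : 𝓞 F) ∈ v.asIdeal) :
    (p : 𝓞 F) ∉ v.asIdeal ^ 2 := by
  rw [not_dvd_discr_iff_forall_mem F (𝓞 F) (Nat.prime_iff_prime_int.1 hp)] at hd
  have hP0 := v.ne_bot
  have := v.isPrime
  have h1 := hd v.asIdeal v.isPrime (by exact_mod_cast hv)
  have h2 : v.asIdeal.ramificationIdx ℤ = 1 := Ideal.ramificationIdx_eq_one_iff.2 h1
  have hpu : (p : ℤ) ∈ v.asIdeal.under ℤ := by
    rw [Ideal.under_def, Ideal.mem_comap]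
    exact_mod_cast hv
  have hpp := Nat.prime_iff_prime_int.1 hp
  have hmax : (Ideal.span {(p : ℤ)}).IsMaximal :=
    PrincipalIdealRing.isMaximal_of_irreducible hpp.irreducible
  have hu : Ideal.span {(p : ℤ)} = v.asIdeal.under ℤ :=
    hmax.eq_of_le (Ideal.IsPrime.ne_top inferInstance)
      ((Ideal.span_singleton_le_iff_mem _).2 hpu)
  have hne : v.asIdeal.under ℤ ≠ ⊥ := by
    rw [← hu, Ne, Ideal.span_singleton_eq_bot]
    exact hpp.ne_zero
  have h3 : (v.asIdeal.under ℤ).ramificationIdx' v.asIdeal = 1 := by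
    rw [Ideal.ramificationIdx'_eq_ramificationIdx (v.asIdeal.under ℤ) v.asIdeal hne, h2]
  intro hp2
  refine (Ideal.ramificationIdx'_ne_one_iff ?_).2 ?_ h3
  · exact Ideal.map_comap_le
  · rw [← hu, Ideal.map_span, Set.image_singleton, Ideal.span_singleton_le_iff_mem]
    exact_mod_cast hp2

/-- the set of bad primes -/
theorem badSet_tw (F : Type) [Field F] [NumberField F] (d : 𝓞 F) (hd : d ≠ 0)
    (h4 : (4 : 𝓞 F) ∣ d - 1) (e : F) (he : 4 * e + 1 = (d : F) ^ 3) :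
    WR.IsBadSet (Wt e)
      (3 * (discr F).natAbs * (Algebra.norm ℤ d).natAbs).primeFactors := by
  have hN0 : (Algebra.norm ℤ d).natAbs ≠ 0 := by
    rw [Int.natAbs_ne_zero, Algebra.norm_ne_zero_iff]
    exact hd
  have hD0 : (discr F).natAbs ≠ 0 := Int.natAbs_ne_zero.2 (discr_ne_zero F)
  refine ⟨fun p hp => Nat.prime_of_mem_primeFactors hp, ?_⟩
  intro p hp hpS v hv
  have hv' : (p : 𝓞 F) ∈ v.asIdeal := hv
  have hndvd : ¬ p ∣ 3 * (discr F).natAbs * (Algebra.norm ℤ d).natAbs := by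
    intro h1
    exact hpS (Nat.mem_primeFactors.2 ⟨hp, h1, mul_ne_zero (mul_ne_zero (by norm_num) hD0) hN0⟩)
  have hp3 : p ≠ 3 := by
    rintro rfl
    exact hndvd (Dvd.dvd.mul_right (dvd_mul_right _ _) _)
  have hpD : ¬ (p : ℤ) ∣ discr F := fun h =>
    hndvd (Dvd.dvd.mul_right (Dvd.dvd.mul_left (Int.natCast_dvd.1 h) _) _)
  have hpN : ¬ p ∣ (Algebra.norm ℤ d).natAbs := fun h => hndvd (Dvd.dvd.mul_left h _)
  have hcop : ∀ k : ℕ, Nat.Coprime k p → (k : 𝓞 F) ∉ v.asIdeal := by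
    intro k hk hkv
    apply v.isPrime.ne_top
    rw [Ideal.eq_top_iff_one]
    have h5 : (1 : 𝓞 F) = ((k.gcdA p : ℤ) : 𝓞 F) * (k : 𝓞 F) +
        ((k.gcdB p : ℤ) : 𝓞 F) * (p : 𝓞 F) := by
      have h6 := Nat.gcd_eq_gcd_ab k p
      rw [hk] at h6
      have h7 := congrArg (fun z : ℤ => (z : 𝓞 F)) h6
      push_cast at h7
      rw [h7]
      ring
    rw [h5]
    exact Ideal.add_mem _ (Ideal.mul_mem_left _ _ hkv) (Ideal.mul_mem_left _ _ hv')
  refine ⟨not_ram_of_discr F p hp hpD v hv', ?_⟩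
  refine good_red F d h4 e he v ?_ ?_
  · have := hcop 3 (by
      rw [Nat.Prime.coprime_iff_not_dvd Nat.prime_three]
      intro h
      exact hp3 ((Nat.prime_dvd_prime_iff_eq Nat.prime_three hp).1 h).symm)
    exact_mod_cast this
  · intro hdv
    have h2 : (((Algebra.norm ℤ d).natAbs : ℕ) : 𝓞 F) ∈ v.asIdeal := by
      have h1 := Ideal.absNorm_mem (Ideal.span {d})
      rw [Ideal.absNorm_span_singleton] at h1
      exact (Ideal.span_singleton_le_iff_mem _).2 hdv h1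
    exact hcop _ (Nat.Coprime.symm ((Nat.Prime.coprime_iff_not_dvd hp).2 hpN)) h2

end NGW
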