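import Pool.Agent.MP_9ab903_nt.FinalDefs2
import Pool.Agent.MP_dfae13_nt.R.Gen

/-! # the 2-part of the formula for Weil restrictions from the one for the elliptic curve -/

set_option autoImplicit false

open NumberField IsDedekindDomain
open scoped Classical

namespace NGW

theorem part_of {K : Type} [Field K] [NumberField K] (W : WeierstrassCurve K)
    (h : SBSD2.TwoPartRankZero W) (S : Finset ℕ) (hS : WR.IsBadSet W S) :
    WeilRes.PartFormula W 2 S := by
  obtain ⟨-, hfin, L, hL, -, hL1, hsha, q, hq, hq2, hqe⟩ := h
  exact WeilRes.partFormula_of W 2 S hS hfin L hL hL1 hsha q hq hq2 hqe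

end NGW
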