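import Pool.Agent.MP_dfae13_nt.NGW.Bad
import Pool.Agent.MP_dfae13_nt.NGW.Part

/-! # the 2-part of the formula for the Weil restrictions of the twists over subfields of `M` -/

set_option autoImplicit false

open NumberField IsDedekindDomain
open CM27 CMT CF
open scoped Classical

namespace NGW

/-- `d ≡ 1 mod 4` is not zero -/
theorem ne_zero_of_four {F : Type} [Field F] [NumberField F] (d : 𝓞 F) (h4 : (4 : 𝓞 F) ∣ d - 1) :
    d ≠ 0 := by
  rintro rfl
  obtain ⟨c, hc⟩ := h4
  have h1 : (algebraMap (𝓞 F) F) (-c) = algebraMap ℚ F (1 / 4) := by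
    have h2 := congrArg (algebraMap (𝓞 F) F) hc
    rw [map_sub, map_zero, map_one, map_mul, map_ofNat] at h2
    rw [map_neg, map_div₀, map_one, map_ofNat]
    field_simp
    linear_combination h2
  have h3 : IsIntegral ℤ (algebraMap ℚ F (1 / 4)) := by
    rw [← h1]
    exact RingOfIntegers.isIntegral_coe _
  rw [isIntegral_algebraMap_iff (algebraMap ℚ F).injective] at h3
  obtain ⟨z, hz⟩ := IsIntegrallyClosed.isIntegral_iff.1 h3
  rw [eq_intCast] at hz
  have h5 : (4 * z : ℤ) = 1 := by
    have : ((4 * z : ℤ) : ℚ) = 1 := by push_cast; rw [hz]; norm_num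
    exact_mod_cast this
  omega

end NGW
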